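import Pool.Agent.H63.FG1

set_option autoImplicit false

namespace Pool.Agent.Results.MP_9d0328_lc.Forbidding

open Pool.Agent.H63.FG

/-- Some forbidding grammar generates a language that, up to the empty word, is generated by no
propagating forbidding grammar. -/
theorem result : ∃ (N : Type) (_ : Fintype N) (G : ForG (Fin 3) N),
    ∀ (N' : Type) [Fintype N'] (G' : ForG (Fin 3) N'), G'.Propagating →
      G'.lang \ {[]} ≠ G.lang \ {[]} := for_sep

end Pool.Agent.Results.MP_9d0328_lc.Forbidding
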